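import Mathlib
import Pool.Agent.Helper590.Duj.Classes2

set_option autoImplicit false

namespace Pool.Agent.Results.MP_b40da5_nt.AlmostAllClasses

/-- The integer pair s = (x, y) solves x^2 - (k^2+1) y^2 = k^2. -/
def IsSol (k : ℕ) (s : ℤ × ℤ) : Prop := s.1 ^ 2 - ((k : ℤ) ^ 2 + 1) * s.2 ^ 2 = (k : ℤ) ^ 2

/-- The pairs s = (x, y) and s' = (x', y') are associated: with d = k^2+1,
x' + y' sqrt d = (x + y sqrt d)(u + v sqrt d) for some integers u, v with u^2 - d v^2 = 1. -/
def Assoc (k : ℕ) (s s' : ℤ × ℤ) : Prop :=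
  ∃ u v : ℤ, u ^ 2 - ((k : ℤ) ^ 2 + 1) * v ^ 2 = 1 ∧
    s'.1 = s.1 * u + ((k : ℤ) ^ 2 + 1) * s.2 * v ∧ s'.2 = s.1 * v + s.2 * u

/-- The set of classes of solutions; a class is the set of all pairs associated to a given solution. -/
def classes (k : ℕ) : Set (Set (ℤ × ℤ)) :=
  {C | ∃ s, IsSol k s ∧ C = {s' | Assoc k s s'}}

/-- The equation has exactly five classes of solutions if k = 2 t^2 for some t at least 2, and exactly three
classes otherwise. -/
def Settled (k : ℕ) : Prop :=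
  ((∃ t : ℕ, 2 ≤ t ∧ k = 2 * t ^ 2) → (classes k).ncard = 5) ∧
    ((¬ ∃ t : ℕ, 2 ≤ t ∧ k = 2 * t ^ 2) → (classes k).ncard = 3)

/-- If K < R^6 then, with at most 30 (log2 K + 1) R^2 exceptions, every k with k at least 2 and at most K
is settled: the equation x^2 - (k^2+1) y^2 = k^2 has exactly five classes if k = 2 t^2, and exactly three
otherwise. (R may be taken of size K^(1/6), so the number of exceptions is at most a constant times
K^(1/3) log K.) -/
theorem result (K R : ℕ) (hKR : K < R ^ 6) :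
    {k : ℕ | 2 ≤ k ∧ k ≤ K ∧ ¬ Settled k}.ncard ≤ 30 * (Nat.log 2 K + 1) * R ^ 2 :=
  Pool.Agent.Helper590.Duj.Cls.almost_all K R hKR

end Pool.Agent.Results.MP_b40da5_nt.AlmostAllClasses
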