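import Mathlib
import Pool.Agent.Helper590.Duj.Main

set_option autoImplicit false

namespace Pool.Agent.Results.MP_b40da5_nt.LargePrimeFactor

/-- (x, y) is a solution of x^2 - (k^2+1) y^2 = k^2 with x positive and 0 < y < k - 1. -/
def Extra (k : ℕ) (x y : ℤ) : Prop :=
  0 < x ∧ 0 < y ∧ y < (k : ℤ) - 1 ∧ x ^ 2 - ((k : ℤ) ^ 2 + 1) * y ^ 2 = (k : ℤ) ^ 2

/-- For k at least 2. If k has a prime factor p with (k/p)^8 < k^3, or if k^2+1 = q m with q a power of an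
odd prime or twice such a power and 128 m^5 at most k^4, then x^2 - (k^2+1) y^2 = k^2 has at most one
solution with x positive and 0 < y < k-1. If k has a prime factor p with 2 (k/p)^3 at most k, or if
k^2+1 = q m with q as before and 6 m^3 at most k^2, then it has no such solution. -/
theorem result (k : ℕ) (_hk : 2 ≤ k) :
    (((∃ p : ℕ, p.Prime ∧ p ∣ k ∧ (k / p) ^ 8 < k ^ 3) ∨
      (∃ p e c m : ℕ, p.Prime ∧ p ≠ 2 ∧ (c = 1 ∨ c = 2) ∧ k ^ 2 + 1 = (c * p ^ e) * m ∧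
        128 * m ^ 5 ≤ k ^ 4)) →
      ∀ x y x' y' : ℤ, Extra k x y → Extra k x' y' → x = x' ∧ y = y') ∧
    (((∃ p : ℕ, p.Prime ∧ p ∣ k ∧ 2 * (k / p) ^ 3 ≤ k) ∨
      (∃ p e c m : ℕ, p.Prime ∧ p ≠ 2 ∧ (c = 1 ∨ c = 2) ∧ k ^ 2 + 1 = (c * p ^ e) * m ∧
        6 * m ^ 3 ≤ k ^ 2)) →
      ∀ x y : ℤ, ¬ Extra k x y) := by
  refine ⟨?_, ?_⟩
  · rintro (⟨p, hp, hpk, h⟩ | ⟨p, e, c, m, hp, hodd, hc, hqm, h⟩) x y x' y' h1 h2
    · exact Pool.Agent.Helper590.Duj.main_A_one k p hp hpk h x y x' y' h1 h2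
    · exact Pool.Agent.Helper590.Duj.main_B_one k p e c m hp hodd hc hqm h x y x' y' h1 h2
  · rintro (⟨p, hp, hpk, h⟩ | ⟨p, e, c, m, hp, hodd, hc, hqm, h⟩) x y h1
    · exact Pool.Agent.Helper590.Duj.main_A_none k p hp hpk h x y h1
    · exact Pool.Agent.Helper590.Duj.main_B_none k p e c m hp hodd hc hqm h x y h1

end Pool.Agent.Results.MP_b40da5_nt.LargePrimeFactor
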